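import Mathlib
import Pool.Agent.Q286.NE.Defs

set_option autoImplicit false

/-!
# Lower bound for the two sided Laplace transform of the source
-/

open Finset MeasureTheory

namespace Pool.Agent.Q144.NE

open Pool.Agent.Q286.NE (tri om S_M)

lemma tri_nonneg (t : ℝ) : 0 ≤ tri t := le_max_right _ _

lemma tri_le_one (t : ℝ) : tri t ≤ 1 := max_le (by linarith [abs_nonneg t]) zero_le_one

lemma tri_cont : Continuous tri := by unfold tri; fun_prop

lemma tri_zero {t : ℝ} (h : 1 ≤ |t|) : tri t = 0 := max_eq_right (by linarith)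

/-- the transform of the triangle -/
lemma tri_int (z : ℂ) (hz : z ≠ 0) :
    ∫ u in (-1 : ℝ)..1, (tri u : ℂ) * Complex.exp (z * u) = (2 * Complex.cosh z - 2) / z ^ 2 := by
  have hc : Continuous fun u : ℝ => (tri u : ℂ) * Complex.exp (z * u) := by
    have := tri_cont
    fun_prop
  rw [← intervalIntegral.integral_add_adjacent_intervals (b := (0 : ℝ)) (hc.intervalIntegrable _ _) (hc.intervalIntegrable _ _)]
  have h1 : ∫ u in (-1 : ℝ)..0, (tri u : ℂ) * Complex.exp (z * u) = ∫ u in (-1 : ℝ)..0, ((1 + u : ℝ) : ℂ) * Complex.exp (z * u) := by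
    apply intervalIntegral.integral_congr
    intro u hu
    rw [Set.uIcc_of_le (by norm_num)] at hu
    have : tri u = 1 + u := by
      unfold tri
      rw [abs_of_nonpos hu.2, max_eq_left (by linarith [hu.1])]; ring
    simp only [this]
  have h2 : ∫ u in (0 : ℝ)..1, (tri u : ℂ) * Complex.exp (z * u) = ∫ u in (0 : ℝ)..1, ((1 - u : ℝ) : ℂ) * Complex.exp (z * u) := by
    apply intervalIntegral.integral_congr
    intro u hu
    rw [Set.uIcc_of_le (by norm_num)] at hu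
    have : tri u = 1 - u := by
      unfold tri
      rw [abs_of_nonneg hu.1, max_eq_left (by linarith [hu.2])]
    simp only [this]
  rw [h1, h2]
  have e1 : ∫ u in (-1 : ℝ)..0, ((1 + u : ℝ) : ℂ) * Complex.exp (z * u) = (fun u : ℝ => ((1 + u : ℝ) : ℂ) * Complex.exp (z * u) / z - Complex.exp (z * u) / z ^ 2) 0 - (fun u : ℝ => ((1 + u : ℝ) : ℂ) * Complex.exp (z * u) / z - Complex.exp (z * u) / z ^ 2) (-1) := by
    refine intervalIntegral.integral_eq_sub_of_hasDerivAt (f := fun u : ℝ => ((1 + u : ℝ) : ℂ) * Complex.exp (z * u) / z - Complex.exp (z * u) / z ^ 2) ?_ ?_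
    · intro u _
      have d1 : HasDerivAt (fun u : ℝ => Complex.exp (z * u)) (Complex.exp (z * u) * z) u := by
        have := ((hasDerivAt_id' (u : ℂ)).const_mul z).cexp.comp_ofReal
        simpa using this
      have d2 : HasDerivAt (fun u : ℝ => ((1 + u : ℝ) : ℂ)) 1 u := by
        have := ((hasDerivAt_id' (u : ℂ)).const_add 1).comp_ofReal
        simpa using this
      refine HasDerivAt.congr_deriv (((d2.mul d1).div_const z).sub (d1.div_const (z ^ 2))) ?_
      field_simp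
      ring
    · apply Continuous.intervalIntegrable
      fun_prop
  have e2 : ∫ u in (0 : ℝ)..1, ((1 - u : ℝ) : ℂ) * Complex.exp (z * u) = (fun u : ℝ => ((1 - u : ℝ) : ℂ) * Complex.exp (z * u) / z + Complex.exp (z * u) / z ^ 2) 1 - (fun u : ℝ => ((1 - u : ℝ) : ℂ) * Complex.exp (z * u) / z + Complex.exp (z * u) / z ^ 2) 0 := by
    refine intervalIntegral.integral_eq_sub_of_hasDerivAt (f := fun u : ℝ => ((1 - u : ℝ) : ℂ) * Complex.exp (z * u) / z + Complex.exp (z * u) / z ^ 2) ?_ ?_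
    · intro u _
      have d1 : HasDerivAt (fun u : ℝ => Complex.exp (z * u)) (Complex.exp (z * u) * z) u := by
        have := ((hasDerivAt_id' (u : ℂ)).const_mul z).cexp.comp_ofReal
        simpa using this
      have d2 : HasDerivAt (fun u : ℝ => ((1 - u : ℝ) : ℂ)) (-1) u := by
        have := ((hasDerivAt_id' (u : ℂ)).const_sub 1).comp_ofReal
        simpa using this
      refine HasDerivAt.congr_deriv (((d2.mul d1).div_const z).add (d1.div_const (z ^ 2))) ?_
      field_simp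
      ring
    · apply Continuous.intervalIntegrable
      fun_prop
  rw [e1, e2, Complex.cosh]
  have : Complex.exp (z * ((-1 : ℝ) : ℂ)) = Complex.exp (-z) := by congr 1; push_cast; ring
  simp only [this]
  simp
  field_simp
  ring

/-- the support of the triangle -/
lemma tri_int_ge (z : ℂ) (hz : z ≠ 0) (R : ℝ) (hR : 1 ≤ R) :
    ∫ u in (-R)..R, (tri u : ℂ) * Complex.exp (z * u) = (2 * Complex.cosh z - 2) / z ^ 2 := by
  have hc : Continuous fun u : ℝ => (tri u : ℂ) * Complex.exp (z * u) := by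
    have := tri_cont
    fun_prop
  rw [← intervalIntegral.integral_add_adjacent_intervals (b := (-1 : ℝ)) (hc.intervalIntegrable _ _) (hc.intervalIntegrable _ _),
    ← intervalIntegral.integral_add_adjacent_intervals (a := (-1 : ℝ)) (b := (1 : ℝ)) (hc.intervalIntegrable _ _) (hc.intervalIntegrable _ _), tri_int z hz]
  have h1 : ∫ u in (-R)..(-1 : ℝ), (tri u : ℂ) * Complex.exp (z * u) = 0 := by
    rw [intervalIntegral.integral_congr (g := fun _ => (0 : ℂ))]
    · simp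
    · intro u hu
      rw [Set.uIcc_of_le (by linarith)] at hu
      have : tri u = 0 := tri_zero (by rw [abs_of_nonpos (by linarith [hu.2])]; linarith [hu.2])
      simp [this]
  have h2 : ∫ u in (1 : ℝ)..R, (tri u : ℂ) * Complex.exp (z * u) = 0 := by
    rw [intervalIntegral.integral_congr (g := fun _ => (0 : ℂ))]
    · simp
    · intro u hu
      rw [Set.uIcc_of_le (by linarith)] at hu
      have : tri u = 0 := tri_zero (by rw [abs_of_nonneg (by linarith [hu.1])]; linarith [hu.1])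
      simp [this]
  rw [h1, h2]; ring

lemma quarter_le : (1 : ℝ) / 4 ≤ Real.log (4 / 3) := by
  rw [Real.le_log_iff_exp_le (by norm_num)]
  by_contra h
  push Not at h
  have h1 : (4 / 3 : ℝ) ^ 4 < Real.exp (1 / 4) ^ 4 := pow_lt_pow_left₀ h (by norm_num) (by norm_num)
  rw [← Real.exp_nat_mul] at h1
  have h2 : Real.exp (((4 : ℕ) : ℝ) * (1 / 4)) = Real.exp 1 := by congr 1; norm_num
  rw [h2] at h1
  have := Real.exp_one_lt_d9
  norm_num at h1
  linarith

/-- a single term -/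
lemma term_int (k : ℕ) (w : ℂ) (hw : w ≠ 0) :
    ∫ t in (-(Real.log (4 / 3)))..(Real.log (4 / 3)), (tri (2 ^ (k + 2) * t) : ℂ) * Complex.exp (w * t) =
      2 ^ (k + 2) * (2 * Complex.cosh (w / 2 ^ (k + 2)) - 2) / w ^ 2 := by
  have hN : (2 : ℝ) ^ (k + 2) ≠ 0 := by positivity
  have hN' : (2 : ℂ) ^ (k + 2) ≠ 0 := pow_ne_zero _ two_ne_zero
  have h := intervalIntegral.integral_comp_mul_left (a := -(Real.log (4 / 3))) (b := Real.log (4 / 3))
    (fun u : ℝ => (tri u : ℂ) * Complex.exp ((w / 2 ^ (k + 2)) * u)) hN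
  have e : ∀ t : ℝ, (fun u : ℝ => (tri u : ℂ) * Complex.exp ((w / 2 ^ (k + 2)) * u)) (2 ^ (k + 2) * t) =
      (tri (2 ^ (k + 2) * t) : ℂ) * Complex.exp (w * t) := by
    intro t
    simp only
    congr 2
    push_cast
    field_simp
  simp_rw [e] at h
  rw [h]
  have hR : (1 : ℝ) ≤ 2 ^ (k + 2) * Real.log (4 / 3) := by
    have h1 := quarter_le
    have h2 : (4 : ℝ) ≤ 2 ^ (k + 2) := by
      have : (1 : ℝ) ≤ 2 ^ k := one_le_pow₀ (by norm_num)
      rw [pow_add]; linarith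
    nlinarith
  have h3 := tri_int_ge (w / 2 ^ (k + 2)) (div_ne_zero hw hN') _ hR
  rw [show (2 : ℝ) ^ (k + 2) * -(Real.log (4 / 3)) = -(2 ^ (k + 2) * Real.log (4 / 3)) by ring, h3]
  rw [Complex.real_smul]
  push_cast
  field_simp

/-- the series for the transform -/
lemma om_int (w : ℂ) (hw : w ≠ 0) :
    HasSum (fun k : ℕ => (1 / ((k : ℂ) + 2) ^ 5) * (2 ^ (k + 2) * (2 * Complex.cosh (w / 2 ^ (k + 2)) - 2) / w ^ 2))
      (∫ t in (-(Real.log (4 / 3)))..(Real.log (4 / 3)), (om t : ℂ) * Complex.exp (w * t)) := by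
  have hs : Summable fun k : ℕ => 1 / ((k : ℝ) + 2) ^ 5 := by
    have h1 : Summable fun k : ℕ => 1 / (k : ℝ) ^ 5 := Real.summable_one_div_nat_pow.2 (by norm_num)
    have h2 := (summable_nat_add_iff 2).2 h1
    simpa using h2
  set L := Real.log (4 / 3) with hL
  have hL0 : 0 < L := by have := quarter_le; linarith
  have key := intervalIntegral.hasSum_integral_of_dominated_convergence (μ := volume) (a := -L) (b := L)
    (F := fun (k : ℕ) (t : ℝ) => ((1 / ((k : ℝ) + 2) ^ 5 * tri (2 ^ (k + 2) * t) : ℝ) : ℂ) * Complex.exp (w * t))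
    (f := fun t : ℝ => (om t : ℂ) * Complex.exp (w * t))
    (bound := fun (k : ℕ) (_ : ℝ) => 1 / ((k : ℝ) + 2) ^ 5 * Real.exp (‖w‖ * L)) ?_ ?_ ?_ ?_ ?_
  · have e : (fun k : ℕ => (1 / ((k : ℂ) + 2) ^ 5) * (2 ^ (k + 2) * (2 * Complex.cosh (w / 2 ^ (k + 2)) - 2) / w ^ 2)) =
        fun k : ℕ => ∫ t in (-L)..L, ((1 / ((k : ℝ) + 2) ^ 5 * tri (2 ^ (k + 2) * t) : ℝ) : ℂ) * Complex.exp (w * t) := by
      funext k
      rw [← term_int k w hw, ← intervalIntegral.integral_const_mul]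
      apply intervalIntegral.integral_congr
      intro t _
      simp only
      push_cast
      ring
    rw [e]
    exact key
  · intro k
    apply Continuous.aestronglyMeasurable
    have := tri_cont
    fun_prop
  · intro k
    refine Filter.Eventually.of_forall fun t ht => ?_
    rw [norm_mul, Complex.norm_real, Complex.norm_exp]
    rw [Set.uIoc_of_le (by linarith)] at ht
    have h1 : ‖1 / ((k : ℝ) + 2) ^ 5 * tri (2 ^ (k + 2) * t)‖ ≤ 1 / ((k : ℝ) + 2) ^ 5 := by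
      rw [norm_mul, Real.norm_of_nonneg (by positivity), Real.norm_of_nonneg (tri_nonneg _)]
      exact mul_le_of_le_one_right (by positivity) (tri_le_one _)
    have h2 : Real.exp (w * t).re ≤ Real.exp (‖w‖ * L) := by
      apply Real.exp_le_exp.2
      calc (w * t).re ≤ ‖w * t‖ := Complex.re_le_norm _
        _ = ‖w‖ * |t| := by rw [norm_mul, Complex.norm_real, Real.norm_eq_abs]
        _ ≤ ‖w‖ * L := by
          apply mul_le_mul_of_nonneg_left _ (norm_nonneg _)
          rw [abs_le]; exact ⟨ht.1.le, ht.2⟩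
    exact mul_le_mul h1 h2 (Real.exp_nonneg _) (by positivity)
  · exact Filter.Eventually.of_forall fun t _ => hs.mul_right _
  · exact intervalIntegrable_const
  · refine Filter.Eventually.of_forall fun t _ => ?_
    have h1 : Summable fun k : ℕ => 1 / ((k : ℝ) + 2) ^ 5 * tri (2 ^ (k + 2) * t) :=
      Summable.of_nonneg_of_le (fun k => mul_nonneg (by positivity) (tri_nonneg _)) (fun k => mul_le_of_le_one_right (by positivity) (tri_le_one _)) hs
    have h2 := h1.hasSum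
    have h3 := Complex.hasSum_ofReal.2 h2
    exact h3.mul_right _

lemma cosh_sub_one_le (x m : ℝ) (hx : |x| ≤ m) : Real.cosh x - 1 ≤ x ^ 2 / 2 * Real.exp (m ^ 2 / 2) := by
  have h1 := Real.cosh_le_exp_half_sq x
  have h2 : x ^ 2 ≤ m ^ 2 := by
    rw [← sq_abs x]; exact pow_le_pow_left₀ (abs_nonneg _) hx 2
  have h3 : Real.exp (x ^ 2 / 2) ≤ Real.exp (m ^ 2 / 2) := Real.exp_le_exp.2 (by linarith)
  have h4 : 1 - x ^ 2 / 2 ≤ Real.exp (-(x ^ 2 / 2)) := by
    have := Real.add_one_le_exp (-(x ^ 2 / 2)); linarith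
  have h5 : Real.exp (x ^ 2 / 2) * Real.exp (-(x ^ 2 / 2)) = 1 := by
    rw [← Real.exp_add]; simp
  have h6 : Real.exp (x ^ 2 / 2) - 1 ≤ x ^ 2 / 2 * Real.exp (x ^ 2 / 2) := by
    nlinarith [Real.exp_pos (x ^ 2 / 2), mul_le_mul_of_nonneg_left h4 (Real.exp_pos (x ^ 2 / 2)).le]
  have h7 : x ^ 2 / 2 * Real.exp (x ^ 2 / 2) ≤ x ^ 2 / 2 * Real.exp (m ^ 2 / 2) :=
    mul_le_mul_of_nonneg_left h3 (by positivity)
  linarith

lemma re_cosh (w : ℂ) (N : ℝ) : (Complex.cosh (w / (N : ℂ))).re = Real.cosh (w.re / N) * Real.cos (w.im / N) := by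
  have h : w / (N : ℂ) = ((w.re / N : ℝ) : ℂ) + ((w.im / N : ℝ) : ℂ) * Complex.I := by
    apply Complex.ext
    · simp [Complex.div_ofReal_re]
    · simp [Complex.div_ofReal_im]
  rw [h, Complex.cosh_add, Complex.cosh_mul_I, Complex.sinh_mul_I, ← Complex.ofReal_cosh, ← Complex.ofReal_cos,
    ← Complex.ofReal_sinh, ← Complex.ofReal_sin, Complex.add_re, ← Complex.ofReal_mul, Complex.ofReal_re,
    ← mul_assoc, ← Complex.ofReal_mul, Complex.re_ofReal_mul, Complex.I_re]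
  ring

/-- the explicit form -/
theorem mlow' : ∃ a : ℝ, 0 < a ∧ ∀ m : ℕ, ∃ T₀ : ℝ, 2 ≤ T₀ ∧ ∀ w : ℂ, |w.re| ≤ m → T₀ ≤ |w.im| →
    a / (|w.im| * Real.log |w.im| ^ 5) ≤
      ‖∫ t in (-(Real.log (4 / 3)))..(Real.log (4 / 3)), (om t : ℂ) * Complex.exp (w * t)‖ := by
  refine ⟨1 / 80, by norm_num, fun m => ?_⟩
  set B : ℝ := (m : ℝ) ^ 2 * Real.exp ((m : ℝ) ^ 2 / 2) with hB
  have hB0 : 0 ≤ B := by positivity
  -- eventually B * log ^ 5 ≤ x / 40
  have hev : ∀ᶠ x : ℝ in Filter.atTop, B * Real.log x ^ 5 ≤ x / 40 := by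
    have h := (Real.isLittleO_pow_log_id_atTop (n := 5)).def (c := 1 / (40 * (B + 1))) (by positivity)
    filter_upwards [h, Filter.eventually_ge_atTop (1 : ℝ)] with x hx hx1
    have hl : 0 ≤ Real.log x := Real.log_nonneg hx1
    rw [Real.norm_of_nonneg (pow_nonneg hl 5), id, Real.norm_of_nonneg (by linarith)] at hx
    have h1 : B * Real.log x ^ 5 ≤ B * (1 / (40 * (B + 1)) * x) := mul_le_mul_of_nonneg_left hx hB0
    have h2 : B * (1 / (40 * (B + 1)) * x) = (B / (B + 1)) * (x / 40) := by field_simp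
    have h3 : B / (B + 1) ≤ 1 := by rw [div_le_one (by positivity)]; linarith
    have h4 : (B / (B + 1)) * (x / 40) ≤ 1 * (x / 40) := mul_le_mul_of_nonneg_right h3 (by linarith)
    linarith
  obtain ⟨T, hT⟩ := Filter.eventually_atTop.1 hev
  refine ⟨max (max T 4) (max (m : ℝ) 2), le_trans (le_max_right _ _) (le_max_right _ _), fun w hw1 hw2 => ?_⟩
  have hT1 : T ≤ |w.im| := le_trans (le_trans (le_max_left _ _) (le_max_left _ _)) hw2
  have hT2 : 4 ≤ |w.im| := le_trans (le_trans (le_max_right _ _) (le_max_left _ _)) hw2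
  have hT3 : (m : ℝ) ≤ |w.im| := le_trans (le_trans (le_max_left _ _) (le_max_right _ _)) hw2
  have hw0 : w ≠ 0 := by
    rintro rfl
    simp at hT2
    linarith
  have hlog : 0 < Real.log |w.im| := Real.log_pos (by linarith)
  have hsum := om_int w hw0
  set I := ∫ t in (-(Real.log (4 / 3)))..(Real.log (4 / 3)), (om t : ℂ) * Complex.exp (w * t) with hI
  have hsum2 := Complex.hasSum_re (hsum.mul_left (-(w ^ 2)))
  -- the real parts
  set x : ℕ → ℝ := fun k => w.re / 2 ^ (k + 2) with hx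
  set y : ℕ → ℝ := fun k => w.im / 2 ^ (k + 2) with hy
  have e : ∀ k : ℕ, ((-(w ^ 2)) * ((1 / ((k : ℂ) + 2) ^ 5) * (2 ^ (k + 2) * (2 * Complex.cosh (w / 2 ^ (k + 2)) - 2) / w ^ 2))).re =
      (1 / ((k : ℝ) + 2) ^ 5) * (2 ^ (k + 2) * (2 - 2 * (Real.cosh (x k) * Real.cos (y k)))) := by
    intro k
    have h1 : (-(w ^ 2)) * ((1 / ((k : ℂ) + 2) ^ 5) * (2 ^ (k + 2) * (2 * Complex.cosh (w / 2 ^ (k + 2)) - 2) / w ^ 2)) =
        (((1 / ((k : ℝ) + 2) ^ 5) * 2 ^ (k + 2) : ℝ) : ℂ) * (2 - 2 * Complex.cosh (w / ((2 ^ (k + 2) : ℝ) : ℂ))) := by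
      push_cast
      field_simp
      ring
    rw [h1, Complex.re_ofReal_mul]
    have h2 : (2 - 2 * Complex.cosh (w / ((2 ^ (k + 2) : ℝ) : ℂ))).re = 2 - 2 * (Real.cosh (x k) * Real.cos (y k)) := by
      rw [Complex.sub_re, Complex.mul_re, re_cosh]
      simp [hx, hy]
    rw [h2]; ring
  replace hsum2 : HasSum (fun k : ℕ => (1 / ((k : ℝ) + 2) ^ 5) * (2 ^ (k + 2) * (2 - 2 * (Real.cosh (x k) * Real.cos (y k))))) (-(w ^ 2) * I).re := by
    have e' := funext e
    rw [← e']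
    exact hsum2
  -- lower bound for every term
  have hlow : ∀ k : ℕ, (1 / ((k : ℝ) + 2) ^ 5) * (2 ^ (k + 2) * (2 * (1 - Real.cos (y k)))) - B / 4 * (1 / 2) ^ k ≤
      (1 / ((k : ℝ) + 2) ^ 5) * (2 ^ (k + 2) * (2 - 2 * (Real.cosh (x k) * Real.cos (y k)))) := by
    intro k
    have hk1 : (1 : ℝ) ≤ 2 ^ (k + 2) := one_le_pow₀ (by norm_num)
    have hxk : |x k| ≤ m := by
      simp only [hx]
      rw [abs_div, abs_of_pos (show (0 : ℝ) < 2 ^ (k + 2) by positivity), div_le_iff₀ (by positivity)]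
      have : (m : ℝ) * 1 ≤ m * 2 ^ (k + 2) := mul_le_mul_of_nonneg_left hk1 (by positivity)
      linarith
    have h1 := cosh_sub_one_le (x k) m hxk
    have h2 : Real.cosh (x k) * Real.cos (y k) ≤ Real.cos (y k) + (Real.cosh (x k) - 1) := by
      have h3 : 0 ≤ Real.cosh (x k) - 1 := by linarith [Real.one_le_cosh (x k)]
      have h4 := Real.cos_le_one (y k)
      nlinarith
    have ha0 : (0 : ℝ) ≤ 1 / ((k : ℝ) + 2) ^ 5 := by positivity
    have ha1 : 1 / ((k : ℝ) + 2) ^ 5 ≤ (1 : ℝ) := by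
      rw [div_le_one (by positivity)]
      exact one_le_pow₀ (by have : (0 : ℝ) ≤ k := by positivity
                            linarith)
    have h5 : 2 ^ (k + 2) * (2 * (1 - Real.cos (y k))) - B / 4 * (1 / 2) ^ k ≤
        2 ^ (k + 2) * (2 - 2 * (Real.cosh (x k) * Real.cos (y k))) := by
      have h6 : 2 ^ (k + 2) * (x k) ^ 2 * Real.exp ((m : ℝ) ^ 2 / 2) ≤ B / 4 * (1 / 2) ^ k := by
        have h7 : 2 ^ (k + 2) * (x k) ^ 2 = w.re ^ 2 / 4 * (1 / 2) ^ k := by
          simp only [hx]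
          rw [div_pow, one_div, inv_pow, pow_add]
          field_simp
          ring
        rw [h7, hB]
        have h8 : w.re ^ 2 ≤ (m : ℝ) ^ 2 := by
          rw [← sq_abs w.re]; exact pow_le_pow_left₀ (abs_nonneg _) hw1 2
        have h9 : 0 ≤ (1 / 2 : ℝ) ^ k * Real.exp ((m : ℝ) ^ 2 / 2) := by positivity
        nlinarith [mul_le_mul_of_nonneg_right h8 h9]
      have h10 : 2 ^ (k + 2) * (2 * (Real.cosh (x k) - 1)) ≤ 2 ^ (k + 2) * (x k) ^ 2 * Real.exp ((m : ℝ) ^ 2 / 2) := by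
        have : 2 * (Real.cosh (x k) - 1) ≤ (x k) ^ 2 * Real.exp ((m : ℝ) ^ 2 / 2) := by linarith
        calc _ ≤ 2 ^ (k + 2) * ((x k) ^ 2 * Real.exp ((m : ℝ) ^ 2 / 2)) := mul_le_mul_of_nonneg_left this (by positivity)
          _ = _ := by ring
      have h11 : 2 ^ (k + 2) * (2 * (1 - Real.cos (y k))) - 2 ^ (k + 2) * (2 * (Real.cosh (x k) - 1)) ≤
          2 ^ (k + 2) * (2 - 2 * (Real.cosh (x k) * Real.cos (y k))) := by
        rw [← mul_sub]
        apply mul_le_mul_of_nonneg_left _ (by positivity)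
        linarith
      linarith
    have hb0 : 0 ≤ B / 4 * (1 / 2 : ℝ) ^ k := by positivity
    have h6 := mul_le_mul_of_nonneg_left h5 ha0
    rw [mul_sub] at h6
    have h7 : 1 / ((k : ℝ) + 2) ^ 5 * (B / 4 * (1 / 2) ^ k) ≤ 1 * (B / 4 * (1 / 2) ^ k) := mul_le_mul_of_nonneg_right ha1 hb0
    linarith
  -- the main term
  obtain ⟨n, hn1, hn2⟩ : ∃ n : ℕ, (2 : ℝ) ^ (n + 2) ≤ |w.im| ∧ |w.im| < 2 ^ (n + 3) := by
    obtain ⟨n, hn1, hn2⟩ := exists_nat_pow_near (x := |w.im| / 4) (y := (2 : ℝ)) (by linarith) (by norm_num)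
    refine ⟨n, ?_, ?_⟩
    · rw [pow_add]; linarith
    · rw [show n + 3 = (n + 1) + 2 by ring, pow_add]; linarith
  have hgeo : HasSum (fun k : ℕ => B / 4 * (1 / 2 : ℝ) ^ k) (B / 2) := by
    have := hasSum_geometric_two.mul_left (B / 4)
    rw [show B / 2 = B / 4 * 2 by ring]
    exact this
  have hmain : (1 / ((n : ℝ) + 2) ^ 5) * (2 ^ (n + 2) * (2 * (1 - Real.cos (y n)))) - B / 2 ≤ (-(w ^ 2) * I).re := by
    have h1 := hsum2.add hgeo
    have h2 : (1 / ((n : ℝ) + 2) ^ 5) * (2 ^ (n + 2) * (2 * (1 - Real.cos (y n)))) ≤ (-(w ^ 2) * I).re + B / 2 := by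
      have h3 : ∀ k : ℕ, 0 ≤ (1 / ((k : ℝ) + 2) ^ 5) * (2 ^ (k + 2) * (2 * (1 - Real.cos (y k)))) := by
        intro k
        have := Real.cos_le_one (y k)
        apply mul_nonneg (by positivity)
        apply mul_nonneg (by positivity)
        linarith
      have h4 : (1 / ((n : ℝ) + 2) ^ 5) * (2 ^ (n + 2) * (2 * (1 - Real.cos (y n)))) ≤
          (1 / ((n : ℝ) + 2) ^ 5) * (2 ^ (n + 2) * (2 - 2 * (Real.cosh (x n) * Real.cos (y n)))) + B / 4 * (1 / 2) ^ n := by
        linarith [hlow n]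
      refine h4.trans (le_hasSum h1 n fun k _ => ?_)
      linarith [hlow k, h3 k]
    linarith
  have hcos : Real.cos (y n) ≤ 5 / 9 := by
    have h1 : Real.cos (y n) = Real.cos (|w.im| / 2 ^ (n + 2)) := by
      rw [← Real.cos_abs (y n)]
      simp only [hy]
      rw [abs_div, abs_of_pos (show (0 : ℝ) < 2 ^ (n + 2) by positivity)]
    rw [h1]
    have h2 : 1 ≤ |w.im| / 2 ^ (n + 2) := by rw [one_le_div (by positivity)]; exact hn1
    have h3 : |w.im| / 2 ^ (n + 2) ≤ 2 := by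
      rw [div_le_iff₀ (by positivity)]
      have : (2 : ℝ) ^ (n + 3) = 2 * 2 ^ (n + 2) := by ring
      linarith
    have h4 : Real.cos (|w.im| / 2 ^ (n + 2)) ≤ Real.cos 1 :=
      Real.cos_le_cos_of_nonneg_of_le_pi (by norm_num) (by linarith [Real.pi_gt_three]) h2
    linarith [Real.cos_one_le]
  have hlog2 : ((n : ℝ) + 2) * Real.log 2 ≤ Real.log |w.im| := by
    have h1 := Real.log_le_log (by positivity) hn1
    rw [Real.log_pow] at h1
    push_cast at h1
    exact h1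
  have hlogn : 1 / ((n : ℝ) + 2) ^ 5 ≥ (15 / 100) / Real.log |w.im| ^ 5 := by
    rw [ge_iff_le, div_le_div_iff₀ (by positivity) (by positivity)]
    have h1 : (((n : ℝ) + 2) * Real.log 2) ^ 5 ≤ Real.log |w.im| ^ 5 :=
      pow_le_pow_left₀ (by positivity) hlog2 5
    rw [mul_pow] at h1
    have h2 : (15 / 100 : ℝ) ≤ Real.log 2 ^ 5 := by
      have h3 : (69 / 100 : ℝ) ≤ Real.log 2 := by linarith [Real.log_two_gt_d9]
      calc (15 / 100 : ℝ) ≤ (69 / 100) ^ 5 := by norm_num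
        _ ≤ _ := pow_le_pow_left₀ (by norm_num) h3 5
    have h4 : (15 / 100 : ℝ) * ((n : ℝ) + 2) ^ 5 ≤ ((n : ℝ) + 2) ^ 5 * Real.log 2 ^ 5 := by
      rw [mul_comm]; exact mul_le_mul_of_nonneg_left h2 (by positivity)
    linarith
  have hbig : |w.im| / (20 * Real.log |w.im| ^ 5) ≤ (1 / ((n : ℝ) + 2) ^ 5) * (2 ^ (n + 2) * (2 * (1 - Real.cos (y n)))) := by
    have h1 : |w.im| / 2 ≤ 2 ^ (n + 2) := by
      have : (2 : ℝ) ^ (n + 3) = 2 * 2 ^ (n + 2) := by ring
      linarith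
    have h2 : |w.im| / 2 * (8 / 9) ≤ 2 ^ (n + 2) * (2 * (1 - Real.cos (y n))) := by
      apply mul_le_mul h1 (by linarith) (by norm_num) (by positivity)
    have h3 := mul_le_mul hlogn.le h2 (by positivity) (by positivity)
    refine le_trans ?_ h3
    rw [div_le_iff₀ (by positivity)]
    have h4 : (15 / 100) / Real.log |w.im| ^ 5 * (|w.im| / 2 * (8 / 9)) * (20 * Real.log |w.im| ^ 5) = (15 / 100) * (|w.im| / 2 * (8 / 9)) * 20 := by
      field_simp
    rw [h4]
    nlinarith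
  have hBs : B / 2 ≤ |w.im| / (40 * Real.log |w.im| ^ 5) := by
    have h1 := hT _ hT1
    rw [le_div_iff₀ (by positivity)]
    nlinarith
  have hfin : |w.im| / (40 * Real.log |w.im| ^ 5) ≤ ‖w‖ ^ 2 * ‖I‖ := by
    have h1 : (-(w ^ 2) * I).re ≤ ‖w‖ ^ 2 * ‖I‖ := by
      refine (Complex.re_le_norm _).trans ?_
      rw [norm_mul, norm_neg, norm_pow]
    have h2 : |w.im| / (20 * Real.log |w.im| ^ 5) = |w.im| / (40 * Real.log |w.im| ^ 5) + |w.im| / (40 * Real.log |w.im| ^ 5) := by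
      field_simp
      norm_num
    linarith
  have hw2' : ‖w‖ ^ 2 ≤ 2 * |w.im| ^ 2 := by
    rw [Complex.sq_norm, Complex.normSq_apply]
    have h1 : w.re * w.re ≤ |w.im| ^ 2 := by
      have : |w.re| ^ 2 ≤ |w.im| ^ 2 := pow_le_pow_left₀ (abs_nonneg _) (hw1.trans hT3) 2
      rw [sq_abs] at this
      linarith [sq w.re]
    have h2 : w.im * w.im = |w.im| ^ 2 := by rw [sq_abs]; ring
    linarith
  have h1 : |w.im| / (40 * Real.log |w.im| ^ 5) ≤ 2 * |w.im| ^ 2 * ‖I‖ :=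
    hfin.trans (mul_le_mul_of_nonneg_right hw2' (norm_nonneg _))
  have hpos : 0 < |w.im| := by linarith
  rw [div_le_iff₀ (by positivity)] at h1 ⊢
  have h2 : 2 * |w.im| ^ 2 * ‖I‖ * (40 * Real.log |w.im| ^ 5) = |w.im| * (80 * (‖I‖ * (|w.im| * Real.log |w.im| ^ 5))) := by ring
  rw [h2] at h1
  have h3 : 1 ≤ 80 * (‖I‖ * (|w.im| * Real.log |w.im| ^ 5)) := by
    by_contra hcon
    push Not at hcon
    nlinarith
  linarith

/-- JOB M of the project of helper286 -/
theorem mlow : Pool.Agent.Q286.NE.S_M := mlow'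

end Pool.Agent.Q144.NE
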